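import Mathlib

/-!
# Definitions: shift complexity, strong shift complexity, weak reducibility
-/

namespace Pool.Agent.Lib.MP_8e1844_lc

/-- A prefix-free machine: a partial computable function from strings to strings whose domain
contains no two distinct strings one of which is an initial segment of the other. -/
def IsPrefixFreeMachine (V : List Bool →. List Bool) : Prop :=
  Partrec V ∧ ∀ σ τ : List Bool, (V σ).Dom → (V τ).Dom → σ <+: τ → σ = τ

/-- A universal prefix-free machine: a prefix-free machine which is optimal, i.e. simulates every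
prefix-free machine up to an additive constant in the length of the programs.  (Every prefix-free
machine `U` such that each prefix-free machine `V` has a string `ρ` with `U (ρ ++ τ) = V τ` for
all `τ` is universal in this sense.) -/
def IsUniversalMachine (U : List Bool →. List Bool) : Prop :=
  IsPrefixFreeMachine U ∧
    ∀ V : List Bool →. List Bool, IsPrefixFreeMachine V →
      ∃ c : ℕ, ∀ τ x, x ∈ V τ → ∃ τ', x ∈ U τ' ∧ τ'.length ≤ τ.length + c

/-- The (prefix-free) complexity `K σ = min {|τ| : U τ = σ}` with respect to the machine `U`. -/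
noncomputable def K (U : List Bool →. List Bool) (σ : List Bool) : ℕ :=
  sInf {n : ℕ | ∃ τ : List Bool, σ ∈ U τ ∧ τ.length = n}

/-- A continuous semimeasure: `ν ≥ 0`, `ν ⟨⟩ = 1` and `ν (σ0) + ν (σ1) ≤ ν σ`. -/
structure IsSemimeasure (ν : List Bool → ℝ) : Prop where
  nonneg : ∀ σ, 0 ≤ ν σ
  root : ν [] = 1
  split : ∀ σ, ν (σ ++ [false]) + ν (σ ++ [true]) ≤ ν σ

/-- `ν` is left r.e.: the set of all `(σ, a, b)` with `a < b * ν σ`, that is `a / b < ν σ`, is
recursively enumerable. -/
def LeftRE (ν : List Bool → ℝ) : Prop :=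
  REPred fun p : List Bool × ℕ × ℕ => (p.2.1 : ℝ) < p.2.2 * ν p.1

/-- A universal left r.e. continuous semimeasure: one which dominates all others up to a
multiplicative constant. -/
def IsUniversalSemimeasure (M : List Bool → ℝ) : Prop :=
  (IsSemimeasure M ∧ LeftRE M) ∧
    ∀ ν : List Bool → ℝ, IsSemimeasure ν → LeftRE ν → ∃ c : ℝ, 0 < c ∧ ∀ σ, ν σ ≤ c * M σ

/-- A priori complexity `KA σ = - log₂ (M σ)`. -/
noncomputable def KA (M : List Bool → ℝ) (σ : List Bool) : ℝ := -Real.logb 2 (M σ)

/-- The block of `n` consecutive bits of `X` which starts at position `i`. -/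
def window (X : ℕ → Bool) (i n : ℕ) : List Bool := List.ofFn fun j : Fin n => X (i + j)

/-- The class `SC δ` of the `δ`-shift complex sequences: for some `c`, every finite substring `σ`
satisfies `K σ ≥ δ |σ| - c`. -/
def SC (U : List Bool →. List Bool) (δ : ℝ) : Set (ℕ → Bool) :=
  {X | ∃ c : ℕ, ∀ i n : ℕ, δ * n - c ≤ (K U (window X i n) : ℝ)}

/-- The class `SSC δ` of the strongly `δ`-shift complex sequences: for some `c`, every finite
substring `σ` satisfies `KA σ ≥ δ |σ| - c`. -/
def SSC (M : List Bool → ℝ) (δ : ℝ) : Set (ℕ → Bool) :=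
  {X | ∃ c : ℕ, ∀ i n : ℕ, δ * n - c ≤ KA M (window X i n)}

/-- The sequence `X` as a function on the natural numbers with values `0` and `1`. -/
def oracle (X : ℕ → Bool) : ℕ →. ℕ := fun n => Part.some (X n).toNat

/-- Weak (Muchnik) reducibility `P ≤_w Q`: every `Y ∈ Q` computes some `X ∈ P`. -/
def WeakLE (P Q : Set (ℕ → Bool)) : Prop :=
  ∀ Y ∈ Q, ∃ X ∈ P, TuringReducible (oracle X) (oracle Y)

/-- Weak (Muchnik) equivalence. -/
def WeakEquivalent (P Q : Set (ℕ → Bool)) : Prop := WeakLE P Q ∧ WeakLE Q P

end Pool.Agent.Lib.MP_8e1844_lc
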