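import Pool.Agent.Lib.MP_8e1844_lc.Defs

/-!
# Shift complexity versus strong shift complexity in the weak degrees: the proof

For every real `δ > 0`, the class `SC δ` of `δ`-shift complex sequences and the class `SSC δ` of
strongly `δ`-shift complex sequences are weakly (Muchnik) equivalent.

Idea.  If `X` is `δ`-shift complex with constant `c` then `X` omits some block of zeros `0^N`, so
the number of words of length `L = N t` which occur in `X` at positions divisible by `N` is at most
`(2^N - 1)^t ≤ 2^(L-1)` for a suitable `t`.  Recoding the consecutive blocks of `X` of length `L`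
into blocks of length `L - 1` by a fixed injection gives `Y ≤_T X` with
`K τ ≥ δ (L / (L-1)) |τ| - O(1)` for all substrings `τ` of `Y`; so `Y` is `δ'`-shift complex for
some `δ' > δ`.  As `K ≤ KA + o(n)` on strings of length `n`, `Y` is strongly `δ`-shift complex.
-/

namespace Pool.Agent.Lib.MP_8e1844_lc

open Encodable

/-! ### Basic facts on machines -/

theorem exists_desc {U} (hU : IsUniversalMachine U) (x : List Bool) : ∃ τ, x ∈ U τ := by
  classical
  let V : List Bool →. List Bool := fun σ => if σ = [] then Part.some x else Part.none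
  have hV : IsPrefixFreeMachine V := by
    constructor
    · have h1 : Partrec fun σ : List Bool => cond (decide (σ = [])) (Part.some x) (Part.none) := by
        refine Partrec.cond ?_ (Computable.const x).partrec Partrec.none
        exact (Primrec.eq.comp Primrec.id (Primrec.const [])).decide.to_comp
      refine h1.of_eq ?_
      intro σ
      by_cases h : σ = [] <;> simp [V, h]
    · intro σ τ hσ hτ _
      have e1 : σ = [] := by
        by_contra h
        simp [V, h] at hσ
      have e2 : τ = [] := by
        by_contra h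
        simp [V, h] at hτ
      rw [e1, e2]
  obtain ⟨c, hc⟩ := hU.2 V hV
  obtain ⟨τ', h, _⟩ := hc [] x (by simp [V])
  exact ⟨τ', h⟩

theorem K_spec {U} (hU : IsUniversalMachine U) (x : List Bool) :
    ∃ τ, x ∈ U τ ∧ τ.length = K U x := by
  have : (K U x) ∈ {n : ℕ | ∃ τ : List Bool, x ∈ U τ ∧ τ.length = n} := by
    apply Nat.sInf_mem
    obtain ⟨τ, h⟩ := exists_desc hU x
    exact ⟨τ.length, τ, h, rfl⟩
  exact this

theorem K_le {U} {x τ : List Bool} (h : x ∈ U τ) : K U x ≤ τ.length :=
  Nat.sInf_le ⟨τ, h, rfl⟩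

theorem K_le_of_machine {U} (hU : IsUniversalMachine U) {V} (hV : IsPrefixFreeMachine V) :
    ∃ c : ℕ, ∀ τ x, x ∈ V τ → K U x ≤ τ.length + c := by
  obtain ⟨c, hc⟩ := hU.2 V hV
  refine ⟨c, fun τ x hx => ?_⟩
  obtain ⟨τ', h, hl⟩ := hc τ x hx
  exact (K_le h).trans hl

theorem K_map {U} (hU : IsUniversalMachine U) {g : List Bool → List Bool} (hg : Computable g) :
    ∃ c : ℕ, ∀ x, K U (g x) ≤ K U x + c := by
  let V : List Bool →. List Bool := fun σ => (U σ).map g
  have hV : IsPrefixFreeMachine V := by
    constructor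
    · exact hU.1.1.map (hg.comp Computable.snd).to₂
    · intro σ τ hσ hτ h
      exact hU.1.2 σ τ hσ hτ h
  obtain ⟨c, hc⟩ := K_le_of_machine hU hV
  refine ⟨c, fun x => ?_⟩
  obtain ⟨τ, h, hl⟩ := K_spec hU x
  rw [← hl]
  exact hc τ (g x) (Part.mem_map g h)

/-- number of leading ones -/
def lead (σ : List Bool) : ℕ := (σ.takeWhile id).length

theorem K_desc {U} (hU : IsUniversalMachine U) (p : ℕ) {f : ℕ × List Bool →. List Bool}
    (hf : Partrec f) :
    ∃ c : ℕ, ∀ (j : ℕ) (w x : List Bool), w.length = p * j → x ∈ f (j, w) →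
      K U x ≤ (p + 1) * j + c := by
  let V : List Bool →. List Bool := fun σ =>
    cond (decide (σ.length = (p + 1) * lead σ + 1)) (f (lead σ, σ.drop (lead σ + 1))) Part.none
  have hlead : Primrec lead := Primrec.list_length.comp (Primrec.list_takeWhile Primrec.id)
  have hV : IsPrefixFreeMachine V := by
    constructor
    · refine Partrec.cond ?_ (hf.comp ?_) Partrec.none
      · refine (Primrec.eq.comp Primrec.list_length ?_).decide.to_comp
        exact Primrec.succ.comp (Primrec.nat_mul.comp (Primrec.const (p + 1)) hlead)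
      · exact (Primrec.pair hlead (Primrec.list_drop.comp (Primrec.succ.comp hlead)
          Primrec.id)).to_comp
    · intro σ τ hσ hτ h
      have e1 : σ.length = (p + 1) * lead σ + 1 := by
        by_contra h'
        simp [V, h'] at hσ
      have e2 : τ.length = (p + 1) * lead τ + 1 := by
        by_contra h'
        simp [V, h'] at hτ
      obtain ⟨ρ, rfl⟩ := h
      have e3 : lead (σ ++ ρ) = lead σ := by
        unfold lead
        rw [List.takeWhile_append, if_neg]
        unfold lead at e1
        intro h4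
        rw [e1] at h4
        nlinarith [Nat.zero_le (p * (List.takeWhile id σ).length)]
      have e4 : ρ = [] := by
        rw [e3, List.length_append] at e2
        exact List.eq_nil_of_length_eq_zero (by omega)
      simp [e4]
  obtain ⟨c, hc⟩ := K_le_of_machine hU hV
  refine ⟨c + 1, fun j w x hw hx => ?_⟩
  have hl : lead (List.replicate j true ++ false :: w) = j := by
    unfold lead
    rw [List.takeWhile_append]
    simp
  have := hc (List.replicate j true ++ false :: w) x (by
    have e : (List.replicate j true ++ false :: w).length =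
      (p + 1) * lead (List.replicate j true ++ false :: w) + 1 := by
      rw [hl]; simp [hw]; ring
    have e5 : (List.replicate j true ++ false :: w).drop (j + 1) = w := by
      rw [List.drop_append]
      simp
    simp only [V, e, decide_true, cond_true]
    rw [hl, e5]
    exact hx)
  have e6 : (List.replicate j true ++ false :: w).length = (p + 1) * j + 1 := by
    simp [hw]; ring
  rw [e6] at this
  omega

/-- stagewise enumeration of an r.e. relation -/
theorem exists_stage {α : Type} [Primcodable α] {P : α → Prop} (hP : REPred P) :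
    ∃ H : α → ℕ → Bool, Computable₂ H ∧ ∀ a, P a ↔ ∃ t, H a t = true := by
  obtain ⟨c, hc⟩ := Nat.Partrec.Code.exists_code.1 hP
  refine ⟨fun a t => (c.evaln t (encode a)).isSome, ?_, ?_⟩
  · have h1 : Primrec fun q : α × ℕ => c.evaln q.2 (encode q.1) :=
      Nat.Partrec.Code.primrec_evaln.comp
        ((Primrec.snd.pair (Primrec.const c)).pair (Primrec.encode.comp Primrec.fst))
    exact (Primrec.option_isSome.comp h1).to_comp
  · intro a
    have h2 : P a ↔ (c.eval (encode a)).Dom := by
      rw [hc]
      simp [Part.assert, Part.map]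
    rw [h2, Part.dom_iff_mem]
    constructor
    · rintro ⟨y, hy⟩
      obtain ⟨k, hk⟩ := Nat.Partrec.Code.evaln_complete.1 hy
      refine ⟨k, ?_⟩
      show (c.evaln k (encode a)).isSome = true
      rw [Option.mem_def.1 hk]; rfl
    · rintro ⟨k, hk⟩
      obtain ⟨y, hy⟩ := Option.isSome_iff_exists.1 hk
      exact ⟨y, Nat.Partrec.Code.evaln_sound (Option.mem_def.2 hy)⟩

theorem re_exists {α : Type} [Primcodable α] {P : α → ℕ → Bool} (hP : Computable₂ P) :
    REPred fun a => ∃ s, P a s = true := by
  have h1 : Partrec fun a => Nat.rfind fun n => (Part.some (P a n) : Part Bool) :=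
    Partrec.rfind hP.partrec₂
  refine h1.dom_re.of_eq ?_
  intro a
  refine (Nat.rfind_dom (p := fun n => (Part.some (P a n) : Part Bool))).trans ?_
  simp

section enum

variable {α : Type}

/-- Boolean membership test for lists of strings. -/
def memb (τ : List Bool) (L : List (List Bool)) : Bool :=
  decide (@List.idxOf (List Bool) instBEqOfDecidableEq τ L < L.length)

theorem memb_iff (τ : List Bool) (L : List (List Bool)) : memb τ L = true ↔ τ ∈ L := by
  unfold memb
  rw [decide_eq_true_iff]
  exact @List.idxOf_lt_length_iff (List Bool) instBEqOfDecidableEq _ L τ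

theorem memb_comp : Primrec₂ memb := by
  unfold memb
  exact (Primrec.nat_lt.comp (Primrec.list_idxOf.comp Primrec.fst Primrec.snd)
    (Primrec.list_length.comp Primrec.snd)).decide

/-- The list of the elements enumerated before stage `t`. -/
def lst (H : α → ℕ → Option (List Bool)) (a : α) (t : ℕ) : List (List Bool) :=
  Nat.rec [] (fun s L => (H a s).elim L fun τ => bif memb τ L then L
    else L ++ [τ]) t

theorem lst_zero (H : α → ℕ → Option (List Bool)) (a : α) : lst H a 0 = [] := rfl

theorem lst_succ (H : α → ℕ → Option (List Bool)) (a : α) (t : ℕ) :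
    lst H a (t+1) = (H a t).elim (lst H a t) fun τ =>
      bif memb τ (lst H a t) then lst H a t
      else lst H a t ++ [τ] := rfl

theorem lst_step (H : α → ℕ → Option (List Bool)) (a : α) (t : ℕ) :
    lst H a t <+: lst H a (t+1) := by
  rw [lst_succ]
  rcases H a t with _ | τ
  · simp
  · simp only [Option.elim_some]
    cases memb τ (lst H a t) <;> simp

theorem lst_mono (H : α → ℕ → Option (List Bool)) (a : α) {s t : ℕ} (h : s ≤ t) :
    lst H a s <+: lst H a t := by
  induction t, h using Nat.le_induction with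
  | base => exact List.prefix_refl _
  | succ n _ ih => exact ih.trans (lst_step H a n)

theorem lst_nodup (H : α → ℕ → Option (List Bool)) (a : α) (t : ℕ) : (lst H a t).Nodup := by
  induction t with
  | zero => simp [lst_zero]
  | succ n ih =>
    rw [lst_succ]
    rcases H a n with _ | τ
    · simpa using ih
    · simp only [Option.elim_some]
      rcases h : memb τ (lst H a n) with _ | _
      swap
      · simpa using ih
      · have h' : τ ∉ lst H a n := by
          intro h2
          rw [(memb_iff _ _).2 h2] at h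
          cases h
        simp only [cond_false]
        rw [List.nodup_append]
        refine ⟨ih, by simp, ?_⟩
        intro x hx y hy
        simp at hy
        subst hy
        rintro rfl
        exact h' hx

theorem mem_lst (H : α → ℕ → Option (List Bool)) (a : α) (t : ℕ) (τ : List Bool) :
    τ ∈ lst H a t → ∃ s, H a s = some τ := by
  induction t with
  | zero => simp [lst_zero]
  | succ n ih =>
    rw [lst_succ]
    rcases h : H a n with _ | ρ
    · simpa using ih
    · simp only [Option.elim_some]
      cases memb ρ (lst H a n)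
      · simp only [cond_false, List.mem_append, List.mem_singleton]
        rintro (h2 | rfl)
        · exact ih h2
        · exact ⟨n, h⟩
      · simpa using ih

theorem mem_lst_of (H : α → ℕ → Option (List Bool)) (a : α) (t : ℕ) (τ : List Bool)
    (h : H a t = some τ) : τ ∈ lst H a (t+1) := by
  rw [lst_succ, h]
  simp only [Option.elim_some]
  rcases h : memb τ (lst H a t) with _ | _
  · simp
  · simpa using (memb_iff _ _).1 h

end enum

theorem lst_comp {α : Type} [Primcodable α] {H : α → ℕ → Option (List Bool)}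
    (hH : Computable₂ H) : Computable₂ (lst H) := by
  have : Computable fun q : α × ℕ =>
      (Nat.rec [] (fun s L => (H q.1 s).elim L fun τ => bif memb τ L then L
        else L ++ [τ]) q.2 : List (List Bool)) := by
    refine Computable.nat_rec (f := fun q : α × ℕ => q.2)
      (g := fun _ => ([] : List (List Bool)))
      (h := fun q sL => (H q.1 sL.1).elim sL.2 fun τ =>
        bif memb τ sL.2 then sL.2 else sL.2 ++ [τ])
      Computable.snd (Computable.const []) ?_
    have h1 : Computable fun q : (α × ℕ) × (ℕ × List (List Bool)) => H q.1.1 q.2.1 :=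
      hH.comp (Computable.fst.comp Computable.fst) (Computable.fst.comp Computable.snd)
    have h2 : Computable fun q : (α × ℕ) × (ℕ × List (List Bool)) =>
        (H q.1.1 q.2.1).elim q.2.2 fun τ =>
        bif memb τ q.2.2 then q.2.2 else q.2.2 ++ [τ] := by
      have h3 : Primrec₂ fun (q : (α × ℕ) × (ℕ × List (List Bool))) (τ : List Bool) =>
          bif memb τ q.2.2 then q.2.2 else q.2.2 ++ [τ] := by
        have hL : Primrec fun r : ((α × ℕ) × (ℕ × List (List Bool))) × List Bool =>
            r.1.2.2 := Primrec.snd.comp (Primrec.snd.comp Primrec.fst)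
        refine Primrec.cond ?_ hL (Primrec.list_concat.comp hL Primrec.snd)
        exact memb_comp.comp Primrec.snd hL
      have h4 := Computable.option_casesOn h1 (Computable.snd.comp Computable.snd) h3.to_comp
      refine h4.of_eq ?_
      intro q
      cases H q.1.1 q.2.1 <;> rfl
    exact h2.to₂
  exact this.to₂

theorem enum_lemma {α : Type} [Primcodable α] {R : α → List Bool → Prop}
    (hR : REPred fun p : α × List Bool => R p.1 p.2) :
    ∃ g : α × ℕ →. List Bool, Partrec g ∧ ∀ a (m : ℕ),
      (∀ L : List (List Bool), L.Nodup → (∀ τ ∈ L, R a τ) → L.length ≤ m) →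
      ∀ τ, R a τ → ∃ i < m, τ ∈ g (a, i) := by
  obtain ⟨H0, hH0, h0⟩ := exists_stage hR
  let H : α → ℕ → Option (List Bool) := fun a t =>
    (decode t : Option (List Bool × ℕ)).bind fun q => bif H0 (a, q.1) q.2 then some q.1 else none
  have hH : Computable₂ H := by
    have h1 : Computable₂ fun (r : α × ℕ) (q : List Bool × ℕ) =>
        bif H0 (r.1, q.1) q.2 then some q.1 else none := by
      refine Computable.cond ?_ (Computable.option_some.comp (Computable.fst.comp Computable.snd))
        (Computable.const none)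
      exact hH0.comp ((Computable.fst.comp Computable.fst).pair
        (Computable.fst.comp Computable.snd)) (Computable.snd.comp Computable.snd)
    exact (Computable.option_bind (Computable.decode.comp Computable.snd) h1).to₂
  have hHR : ∀ a τ, R a τ ↔ ∃ t, H a t = some τ := by
    intro a τ
    rw [show R a τ ↔ ∃ t, H0 (a, τ) t = true from h0 (a, τ)]
    constructor
    · rintro ⟨t, ht⟩
      refine ⟨encode (τ, t), ?_⟩
      simp only [H, encodek, Option.bind_some, ht, cond_true]
    · rintro ⟨t, ht⟩
      simp only [H] at ht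
      rcases hd : (decode t : Option (List Bool × ℕ)) with _ | q
      · rw [hd] at ht; simp at ht
      · rw [hd] at ht
        simp only [Option.bind_some] at ht
        rcases hb : H0 (a, q.1) q.2 with _ | _
        · rw [hb] at ht; simp at ht
        · rw [hb] at ht
          simp at ht
          subst ht
          exact ⟨q.2, hb⟩
  have hL := lst_comp hH
  refine ⟨fun r => Nat.rfindOpt fun t => (lst H r.1 t)[r.2]?, ?_, ?_⟩
  · refine Partrec.rfindOpt ?_
    have : Computable fun q : (α × ℕ) × ℕ => (lst H q.1.1 q.2)[q.1.2]? :=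
      Computable.list_getElem?.comp (hL.comp (Computable.fst.comp Computable.fst) Computable.snd)
        (Computable.snd.comp Computable.fst)
    exact this.to₂
  · intro a m hm τ hτ
    obtain ⟨t, ht⟩ := (hHR a τ).1 hτ
    have hmem := mem_lst_of H a t τ ht
    obtain ⟨i, hi, hget⟩ := List.getElem_of_mem hmem
    refine ⟨i, lt_of_lt_of_le hi (hm _ (lst_nodup H a (t+1)) ?_), ?_⟩
    · intro ρ hρ
      exact (hHR a ρ).2 (mem_lst H a (t+1) ρ hρ)
    · have hmono : ∀ {x : List Bool} {m n : ℕ}, m ≤ n → x ∈ (lst H a m)[i]? →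
          x ∈ (lst H a n)[i]? := by
        intro x m n hmn hx
        obtain ⟨ρ, hρ⟩ := lst_mono H a hmn
        rw [← hρ]
        rw [Option.mem_def] at hx ⊢
        rw [List.getElem?_append_left]
        · exact hx
        · by_contra h
          rw [List.getElem?_eq_none (by omega)] at hx
          simp at hx
      refine (Nat.rfindOpt_mono hmono).2 ⟨t+1, ?_⟩
      rw [Option.mem_def, List.getElem?_eq_getElem hi, hget]

theorem pow_primrec (b : ℕ) : Primrec fun n : ℕ => b ^ n := by
  have : Primrec fun n : ℕ => (Nat.rec 1 (fun _ x => x * b) n : ℕ) := by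
    refine Primrec.nat_rec₁ 1 ?_
    exact Primrec.nat_mul.comp Primrec.snd (Primrec.const b)
  refine this.of_eq ?_
  intro n
  induction n with
  | zero => rfl
  | succ n ih => rw [pow_succ, ← ih]

theorem semi_sum {ν : List Bool → ℝ} (hν : IsSemimeasure ν) (n : ℕ) :
    ∀ (σ : List Bool) (S : Finset (List Bool)),
      (∀ τ ∈ S, σ <+: τ ∧ τ.length ≤ σ.length + n) →
      (∀ τ ∈ S, ∀ ρ ∈ S, τ <+: ρ → τ = ρ) → ∑ τ ∈ S, ν τ ≤ ν σ := by
  classical
  induction n with
  | zero =>
    intro σ S hS _
    have hsub : S ⊆ {σ} := by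
      intro τ hτ
      obtain ⟨h1, h2⟩ := hS τ hτ
      rw [Finset.mem_singleton]
      exact (h1.eq_of_length (le_antisymm h1.length_le (by simpa using h2))).symm
    calc ∑ τ ∈ S, ν τ ≤ ∑ τ ∈ {σ}, ν τ :=
          Finset.sum_le_sum_of_subset_of_nonneg hsub (fun i _ _ => hν.nonneg i)
      _ = ν σ := by simp
  | succ n ih =>
    intro σ S hS hpf
    by_cases hσ : σ ∈ S
    · have hsub : S ⊆ {σ} := by
        intro τ hτ
        rw [Finset.mem_singleton]
        exact (hpf σ hσ τ hτ (hS τ hτ).1).symm
      calc ∑ τ ∈ S, ν τ ≤ ∑ τ ∈ {σ}, ν τ :=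
            Finset.sum_le_sum_of_subset_of_nonneg hsub (fun i _ _ => hν.nonneg i)
        _ = ν σ := by simp
    have hsplit : S = (S.filter fun τ => (σ ++ [false]) <+: τ) ∪
        (S.filter fun τ => (σ ++ [true]) <+: τ) := by
      ext τ
      simp only [Finset.mem_union, Finset.mem_filter]
      constructor
      · intro hτ
        obtain ⟨⟨ρ, hρ⟩, h2⟩ := hS τ hτ
        rcases ρ with _ | ⟨b, ρ⟩
        · simp at hρ
          rw [hρ] at hσ
          exact absurd hτ hσ
        · cases b
          · left
            exact ⟨hτ, ρ, by simpa using hρ⟩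
          · right
            exact ⟨hτ, ρ, by simpa using hρ⟩
      · rintro (h | h) <;> exact h.1
    have h0 := ih (σ ++ [false]) (S.filter fun τ => (σ ++ [false]) <+: τ) (by
      intro τ hτ
      rw [Finset.mem_filter] at hτ
      refine ⟨hτ.2, ?_⟩
      have := (hS τ hτ.1).2
      simp; omega) (by
      intro τ hτ ρ hρ
      exact hpf τ (Finset.mem_filter.1 hτ).1 ρ (Finset.mem_filter.1 hρ).1)
    have h1 := ih (σ ++ [true]) (S.filter fun τ => (σ ++ [true]) <+: τ) (by
      intro τ hτ
      rw [Finset.mem_filter] at hτ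
      refine ⟨hτ.2, ?_⟩
      have := (hS τ hτ.1).2
      simp; omega) (by
      intro τ hτ ρ hρ
      exact hpf τ (Finset.mem_filter.1 hτ).1 ρ (Finset.mem_filter.1 hρ).1)
    calc ∑ τ ∈ S, ν τ = ∑ τ ∈ (S.filter fun τ => (σ ++ [false]) <+: τ) ∪
        (S.filter fun τ => (σ ++ [true]) <+: τ), ν τ := by rw [← hsplit]
      _ ≤ ∑ τ ∈ (S.filter fun τ => (σ ++ [false]) <+: τ), ν τ +
          ∑ τ ∈ (S.filter fun τ => (σ ++ [true]) <+: τ), ν τ := by
          rw [← Finset.sum_union_inter]
          have : 0 ≤ ∑ τ ∈ (S.filter fun τ => (σ ++ [false]) <+: τ) ∩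
            (S.filter fun τ => (σ ++ [true]) <+: τ), ν τ :=
            Finset.sum_nonneg (fun i _ => hν.nonneg i)
          linarith
      _ ≤ ν (σ ++ [false]) + ν (σ ++ [true]) := add_le_add h0 h1
      _ ≤ ν σ := hν.split σ

/-- Kraft's inequality for the finite subsets of the domain of a machine. -/
theorem kraft {U : List Bool →. List Bool} (hU : IsPrefixFreeMachine U)
    (S : Finset (List Bool)) (hS : ∀ τ ∈ S, (U τ).Dom) :
    ∑ τ ∈ S, (1 / 2 : ℝ) ^ τ.length ≤ 1 := by
  have hν : IsSemimeasure fun σ => (1 / 2 : ℝ) ^ σ.length := by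
    refine ⟨fun σ => by positivity, by simp, fun σ => ?_⟩
    simp only [List.length_append, List.length_cons, List.length_nil, zero_add, pow_succ]
    linarith
  have := semi_sum hν (S.sup List.length) [] S (by
    intro τ hτ
    refine ⟨List.nil_prefix, ?_⟩
    simpa using Finset.le_sup (f := List.length) hτ) (by
    intro τ hτ ρ hρ h
    exact hU.2 τ ρ (hS τ hτ) (hS ρ hρ) h)
  simpa using this

/-- the string with code `k` (or the empty string) -/
def str (k : ℕ) : List Bool := (decode k : Option (List Bool)).getD []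

theorem str_encode (τ : List Bool) : str (encode τ) = τ := by simp [str]

theorem str_primrec : Primrec str :=
  Primrec.option_getD.comp Primrec.decode (Primrec.const [])

open Classical in
noncomputable def v (U : List Bool →. List Bool) (σ : List Bool) (k : ℕ) : ℝ :=
  if encode (str k) = k ∧ ∃ x ∈ U (str k), σ <+: x then (1 / 2) ^ (str k).length else 0

theorem v_nonneg (U : List Bool →. List Bool) (σ : List Bool) (k : ℕ) : 0 ≤ v U σ k := by
  unfold v; split_ifs <;> positivity

theorem v_sum_le {U : List Bool →. List Bool} (hU : IsPrefixFreeMachine U) (σ : List Bool)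
    (T : Finset ℕ) : ∑ k ∈ T, v U σ k ≤ 1 := by
  classical
  unfold v
  rw [← Finset.sum_filter]
  set T' := T.filter fun k => encode (str k) = k ∧ ∃ x ∈ U (str k), σ <+: x with hT'
  have hinj : Set.InjOn str (T' : Set ℕ) := by
    intro a ha b hb hab
    rw [Finset.mem_coe, hT', Finset.mem_filter] at ha hb
    rw [← ha.2.1, ← hb.2.1, hab]
  have h2 : ∑ τ ∈ T'.image str, (1 / 2 : ℝ) ^ τ.length = ∑ k ∈ T', (1 / 2 : ℝ) ^ (str k).length :=
    Finset.sum_image hinj
  rw [← h2]
  apply kraft hU
  intro τ hτ
  rw [Finset.mem_image] at hτ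
  obtain ⟨k, hk, rfl⟩ := hτ
  rw [hT', Finset.mem_filter] at hk
  obtain ⟨x, hx, _⟩ := hk.2.2
  exact Part.dom_iff_mem.2 ⟨x, hx⟩

theorem v_summable {U : List Bool →. List Bool} (hU : IsPrefixFreeMachine U) (σ : List Bool) :
    Summable (v U σ) :=
  summable_of_sum_le (v_nonneg U σ) (v_sum_le hU σ)

theorem v_split (U : List Bool →. List Bool) (σ : List Bool) (k : ℕ) :
    v U (σ ++ [false]) k + v U (σ ++ [true]) k ≤ v U σ k := by
  classical
  have key : ∀ b, (encode (str k) = k ∧ ∃ x ∈ U (str k), (σ ++ [b]) <+: x) →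
      (encode (str k) = k ∧ ∃ x ∈ U (str k), σ <+: x) := by
    rintro b ⟨h1, x, hx, h2⟩
    exact ⟨h1, x, hx, (List.prefix_append _ _).trans h2⟩
  have hp : (0 : ℝ) < (1 / 2) ^ (str k).length := by positivity
  by_cases h0 : encode (str k) = k ∧ ∃ x ∈ U (str k), (σ ++ [false]) <+: x
  · by_cases h1 : encode (str k) = k ∧ ∃ x ∈ U (str k), (σ ++ [true]) <+: x
    · exfalso
      obtain ⟨_, x, hx, ⟨a, ha⟩⟩ := h0
      obtain ⟨_, y, hy, ⟨b, hb⟩⟩ := h1
      have hxy := Part.mem_unique hx hy
      rw [← ha, ← hb] at hxy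
      simp at hxy
    · have h2 := key _ h0
      unfold v
      rw [if_pos h0, if_neg h1, if_pos h2]
      linarith
  · by_cases h1 : encode (str k) = k ∧ ∃ x ∈ U (str k), (σ ++ [true]) <+: x
    · have h2 := key _ h1
      unfold v
      rw [if_neg h0, if_pos h1, if_pos h2]
      linarith
    · have : 0 ≤ v U σ k := v_nonneg U σ k
      rw [v, v, if_neg h0, if_neg h1]
      linarith

noncomputable def nuU (U : List Bool →. List Bool) (σ : List Bool) : ℝ :=
  if σ = [] then 1 else ∑' k, v U σ k

theorem nuU_semi {U : List Bool →. List Bool} (hU : IsPrefixFreeMachine U) :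
    IsSemimeasure (nuU U) := by
  refine ⟨?_, by simp [nuU], ?_⟩
  · intro σ
    unfold nuU
    split_ifs
    · norm_num
    · exact tsum_nonneg (v_nonneg U σ)
  · intro σ
    have h1 : ∑' k, v U (σ ++ [false]) k + ∑' k, v U (σ ++ [true]) k ≤ ∑' k, v U σ k := by
      rw [← (v_summable hU _).tsum_add (v_summable hU _)]
      exact ((v_summable hU _).add (v_summable hU _)).tsum_le_tsum (v_split U σ) (v_summable hU _)
    have h2 : ∑' k, v U σ k ≤ nuU U σ := by
      unfold nuU
      split_ifs
      · exact (v_summable hU σ).tsum_le_of_sum_le (v_sum_le hU σ)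
      · exact le_rfl
    have e0 : nuU U (σ ++ [false]) = ∑' k, v U (σ ++ [false]) k := by simp [nuU]
    have e1 : nuU U (σ ++ [true]) = ∑' k, v U (σ ++ [true]) k := by simp [nuU]
    rw [e0, e1]
    exact h1.trans h2

section stage

variable (c : Nat.Partrec.Code)

/-- the output (if any) of the coded machine on `τ` within `s` steps -/
def run (s : ℕ) (τ : List Bool) : Option (List Bool) :=
  (c.evaln s (encode τ)).bind fun n => (decode n : Option (List Bool))

/-- the stage-`s` acceptance condition -/
def cnd (σ : List Bool) (s k : ℕ) : Bool :=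
  (decide (encode (str k) = k) && decide ((str k).length ≤ s)) &&
    decide ((run c s (str k)).map (fun x => x.take σ.length) = some σ)

/-- the stage-`s` scaled lower approximation -/
def stg (σ : List Bool) (s : ℕ) : ℕ → ℕ :=
  Nat.rec 0 fun k acc => acc + bif cnd c σ s k then 2 ^ (s - (str k).length) else 0

theorem cnd_primrec : Primrec fun p : (List Bool × ℕ) × ℕ => cnd c p.1.1 p.1.2 p.2 := by
  unfold cnd
  have hk : Primrec fun p : (List Bool × ℕ) × ℕ => p.2 := Primrec.snd
  have hs : Primrec fun p : (List Bool × ℕ) × ℕ => p.1.2 := Primrec.snd.comp Primrec.fst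
  have hσ : Primrec fun p : (List Bool × ℕ) × ℕ => p.1.1 := Primrec.fst.comp Primrec.fst
  have hstr : Primrec fun p : (List Bool × ℕ) × ℕ => str p.2 := str_primrec.comp hk
  refine Primrec.and.comp (Primrec.and.comp ?_ ?_) ?_
  · exact (Primrec.eq.comp (Primrec.encode.comp hstr) hk).decide
  · exact (Primrec.nat_le.comp (Primrec.list_length.comp hstr) hs).decide
  · refine (Primrec.eq.comp ?_ (Primrec.option_some.comp hσ)).decide
    refine Primrec.option_map ?_ ?_
    · unfold run
      refine Primrec.option_bind ?_ ?_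
      · exact Nat.Partrec.Code.primrec_evaln.comp
          ((hs.pair (Primrec.const c)).pair (Primrec.encode.comp hstr))
      · exact Primrec.decode.comp Primrec.snd
    · exact Primrec.list_take.comp (Primrec.list_length.comp (hσ.comp Primrec.fst)) Primrec.snd

theorem stg_primrec : Primrec fun p : List Bool × ℕ => stg c p.1 p.2 p.2 := by
  unfold stg
  refine Primrec.nat_rec' (f := fun p : List Bool × ℕ => p.2) (g := fun _ => 0)
    (h := fun p q => q.2 + bif cnd c p.1 p.2 q.1 then 2 ^ (p.2 - (str q.1).length) else 0)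
    Primrec.snd (Primrec.const 0) ?_
  refine Primrec.nat_add.comp (Primrec.snd.comp Primrec.snd) ?_
  refine Primrec.cond ?_ ?_ (Primrec.const 0)
  · exact (cnd_primrec c).comp (Primrec.fst.pair (Primrec.fst.comp Primrec.snd))
  · refine (pow_primrec 2).comp (Primrec.nat_sub.comp (Primrec.snd.comp Primrec.fst) ?_)
    exact Primrec.list_length.comp (str_primrec.comp (Primrec.fst.comp Primrec.snd))

end stage

theorem semi_le_one {ν : List Bool → ℝ} (hν : IsSemimeasure ν) (σ : List Bool) : ν σ ≤ 1 := by
  have := semi_sum hν σ.length [] {σ} (by simp) (by simp)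
  simpa [hν.root] using this

theorem count_bound {ν : List Bool → ℝ} (hν : IsSemimeasure ν) (n k : ℕ)
    (L : List (List Bool)) (hL : L.Nodup)
    (h : ∀ τ ∈ L, τ.length = n ∧ (1 : ℝ) < 2 ^ k * ν τ) : L.length ≤ 2 ^ k := by
  classical
  have h1 := semi_sum hν n [] L.toFinset (by
    intro τ hτ
    rw [List.mem_toFinset] at hτ
    simp [(h τ hτ).1]) (by
    intro τ hτ ρ hρ hp
    rw [List.mem_toFinset] at hτ hρ
    exact hp.eq_of_length (by rw [(h τ hτ).1, (h ρ hρ).1]))
  rw [hν.root] at h1
  have h2 : ∑ τ ∈ L.toFinset, (1 : ℝ) ≤ ∑ τ ∈ L.toFinset, 2 ^ k * ν τ := by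
    apply Finset.sum_le_sum
    intro τ hτ
    rw [List.mem_toFinset] at hτ
    exact (h τ hτ).2.le
  rw [← Finset.mul_sum] at h2
  simp only [Finset.sum_const, nsmul_eq_mul, mul_one] at h2
  rw [List.toFinset_card_of_nodup hL] at h2
  have h3 : (L.length : ℝ) ≤ 2 ^ k := by
    calc (L.length : ℝ) ≤ 2 ^ k * ∑ τ ∈ L.toFinset, ν τ := h2
      _ ≤ 2 ^ k * 1 := by gcongr
      _ = 2 ^ k := by ring
  exact_mod_cast h3

theorem REPred.comp' {α β : Type} [Primcodable α] [Primcodable β] {P : β → Prop} (hP : REPred P)
    {f : α → β} (hf : Computable f) : REPred fun a => P (f a) :=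
  Partrec.comp (f := fun b => Part.assert (P b) fun _ => Part.some ()) hP hf

theorem REPred.and_dec {α : Type} [Primcodable α] {P : α → Prop} (hP : REPred P)
    {f : α → Bool} (hf : Computable f) : REPred fun a => f a = true ∧ P a := by
  have h1 : Partrec fun a => cond (f a) (Part.assert (P a) fun _ => Part.some ()) Part.none :=
    Partrec.cond hf hP Partrec.none
  refine Partrec.of_eq h1 ?_
  intro a
  cases hfa : f a
  · ext x; simp [hfa]
  · ext x; simp [hfa]

theorem re_R {ν : List Bool → ℝ} (hre : LeftRE ν) (p q s : ℕ) :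
    REPred fun r : ℕ × List Bool =>
      r.2.length = q * r.1 + s ∧ (1 : ℝ) < 2 ^ (p * r.1) * ν r.2 := by
  have h1 : Computable fun r : ℕ × List Bool => (r.2, ((1 : ℕ), 2 ^ (p * r.1))) := by
    refine (Primrec.snd.pair ((Primrec.const 1).pair ?_)).to_comp
    exact (pow_primrec 2).comp (Primrec.nat_mul.comp (Primrec.const p) Primrec.fst)
  have h2 := REPred.comp' hre h1
  have h3 : Computable fun r : ℕ × List Bool => decide (r.2.length = q * r.1 + s) := by
    refine (Primrec.eq.comp ((Primrec.list_length (α := Bool)).comp Primrec.snd) ?_).decide.to_comp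
    exact Primrec.nat_add.comp (Primrec.nat_mul.comp (Primrec.const q) Primrec.fst)
      (Primrec.const s)
  refine (REPred.and_dec h2 h3).of_eq ?_
  intro r
  simp

/-- value of a binary string -/
def val (w : List Bool) : ℕ := w.foldl (fun a b => 2 * a + b.toNat) 0

theorem val_append (w : List Bool) (b : Bool) : val (w ++ [b]) = 2 * val w + b.toNat := by
  simp [val]

theorem val_surj (k : ℕ) : ∀ i < 2 ^ k, ∃ w : List Bool, w.length = k ∧ val w = i := by
  induction k with
  | zero =>
    intro i hi
    exact ⟨[], rfl, by simp [val]; simp at hi; omega⟩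
  | succ k ih =>
    intro i hi
    obtain ⟨w, hw, hv⟩ := ih (i / 2) (by rw [pow_succ] at hi; omega)
    refine ⟨w ++ [decide (i % 2 = 1)], by simp [hw], ?_⟩
    rw [val_append, hv]
    rcases Nat.mod_two_eq_zero_or_one i with h | h <;> simp [h] <;> omega

theorem val_primrec : Primrec val := by
  have h : Primrec₂ fun (_ : List Bool) (x : ℕ × Bool) => 2 * x.1 + x.2.toNat := by
    refine Primrec.nat_add.comp (Primrec.nat_mul.comp (Primrec.const 2)
      (Primrec.fst.comp Primrec.snd)) ?_
    exact (Primrec.dom_bool Bool.toNat).comp (Primrec.snd.comp Primrec.snd)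
  exact Primrec.list_foldl Primrec.id (Primrec.const 0) h

/-! ### the semimeasure of a machine is left r.e. -/

section leftre

variable {U : List Bool →. List Bool} {c : Nat.Partrec.Code}

theorem stg_eq (σ : List Bool) (s n : ℕ) :
    (stg c σ s n : ℝ) = 2 ^ s * ∑ k ∈ Finset.range n,
      (if cnd c σ s k = true then (1 / 2 : ℝ) ^ (str k).length else 0) := by
  induction n with
  | zero => simp [stg]
  | succ n ih =>
    have h1 : stg c σ s (n+1) = stg c σ s n +
        bif cnd c σ s n then 2 ^ (s - (str n).length) else 0 := rfl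
    rw [h1, Finset.sum_range_succ, mul_add, ← ih, Nat.cast_add]
    congr 1
    cases h : cnd c σ s n
    · simp
    · have hle : (str n).length ≤ s := by
        unfold cnd at h
        simp only [Bool.and_eq_true, decide_eq_true_eq] at h
        exact h.1.2
      simp only [cond_true, if_true, Nat.cast_pow, Nat.cast_ofNat]
      have h2 : (2 : ℝ) ^ s = 2 ^ (s - (str n).length) * 2 ^ (str n).length := by
        rw [← pow_add, Nat.sub_add_cancel hle]
      rw [h2, mul_assoc, ← mul_pow]
      norm_num

theorem run_spec (hc : ∀ τ, c.eval (encode τ) = (U τ).map encode) (τ x : List Bool) :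
    x ∈ U τ ↔ ∃ s, run c s τ = some x := by
  constructor
  · intro hx
    have h1 : encode x ∈ c.eval (encode τ) := by
      rw [hc]; exact Part.mem_map encode hx
    obtain ⟨s, hs⟩ := Nat.Partrec.Code.evaln_complete.1 h1
    refine ⟨s, ?_⟩
    unfold run
    rw [Option.mem_def.1 hs]
    simp
  · rintro ⟨s, hs⟩
    unfold run at hs
    rw [Option.bind_eq_some_iff] at hs
    obtain ⟨n, hn, hx⟩ := hs
    have h1 := Nat.Partrec.Code.evaln_sound (Option.mem_def.2 hn)
    rw [hc, Part.mem_map_iff] at h1
    obtain ⟨y, hy, rfl⟩ := h1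
    rw [encodek] at hx
    cases hx
    exact hy

theorem run_mono {s t : ℕ} (hst : s ≤ t) {τ x : List Bool} (h : run c s τ = some x) :
    run c t τ = some x := by
  unfold run at h ⊢
  rw [Option.bind_eq_some_iff] at h ⊢
  obtain ⟨n, hn, hx⟩ := h
  exact ⟨n, Nat.Partrec.Code.evaln_mono hst hn, hx⟩

theorem take_iff (σ x : List Bool) : x.take σ.length = σ ↔ σ <+: x := by
  constructor
  · intro h
    rw [← h]
    exact List.take_prefix _ _
  · intro h
    rw [List.prefix_iff_eq_take] at h
    exact h.symm

theorem cnd_sound (hc : ∀ τ, c.eval (encode τ) = (U τ).map encode) {σ : List Bool} {s k : ℕ}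
    (h : cnd c σ s k = true) : encode (str k) = k ∧ ∃ x ∈ U (str k), σ <+: x := by
  unfold cnd at h
  simp only [Bool.and_eq_true, decide_eq_true_eq] at h
  obtain ⟨⟨h1, _⟩, h3⟩ := h
  rw [Option.map_eq_some_iff] at h3
  obtain ⟨x, hx, h4⟩ := h3
  exact ⟨h1, x, (run_spec hc _ _).2 ⟨s, hx⟩, (take_iff _ _).1 h4⟩

theorem cnd_complete (hc : ∀ τ, c.eval (encode τ) = (U τ).map encode) {σ : List Bool} {k : ℕ}
    (h : encode (str k) = k ∧ ∃ x ∈ U (str k), σ <+: x) :
    ∃ s0, ∀ s, s0 ≤ s → cnd c σ s k = true := by
  obtain ⟨h1, x, hx, h2⟩ := h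
  obtain ⟨s1, hs1⟩ := (run_spec hc _ _).1 hx
  refine ⟨max s1 (str k).length, fun s hs => ?_⟩
  unfold cnd
  simp only [Bool.and_eq_true, decide_eq_true_eq]
  refine ⟨⟨h1, le_trans (le_max_right _ _) hs⟩, ?_⟩
  rw [run_mono (le_trans (le_max_left _ _) hs) hs1]
  simp [(take_iff _ _).2 h2]

theorem stg_le (hU : IsPrefixFreeMachine U)
    (hc : ∀ τ, c.eval (encode τ) = (U τ).map encode) (σ : List Bool) (s n : ℕ) :
    (stg c σ s n : ℝ) ≤ 2 ^ s * ∑' k, v U σ k := by
  rw [stg_eq]
  gcongr
  refine le_trans (Finset.sum_le_sum ?_) ((v_summable hU σ).sum_le_tsum (Finset.range n)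
    (fun k _ => v_nonneg U σ k))
  intro k _
  by_cases h : cnd c σ s k = true
  · rw [if_pos h]
    unfold v
    rw [if_pos (cnd_sound hc h)]
  · rw [if_neg h]
    exact v_nonneg U σ k

theorem stg_lim (hc : ∀ τ, c.eval (encode τ) = (U τ).map encode) (σ : List Bool) (n : ℕ) :
    ∃ s0, ∀ s, s0 ≤ s → 2 ^ s * ∑ k ∈ Finset.range n, v U σ k ≤ (stg c σ s s : ℝ) := by
  have h1 : ∀ k, ∃ s0, ∀ s, s0 ≤ s →
      v U σ k ≤ (if cnd c σ s k = true then (1 / 2 : ℝ) ^ (str k).length else 0) := by
    intro k
    by_cases h : encode (str k) = k ∧ ∃ x ∈ U (str k), σ <+: x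
    · obtain ⟨s0, hs0⟩ := cnd_complete hc h
      refine ⟨s0, fun s hs => ?_⟩
      rw [if_pos (hs0 s hs)]
      unfold v
      rw [if_pos h]
    · refine ⟨0, fun s _ => ?_⟩
      have : v U σ k = 0 := by
        unfold v
        rw [if_neg h]
      rw [this]
      split_ifs <;> positivity
  choose s0 hs0 using h1
  refine ⟨max n ((Finset.range n).sup s0), fun s hs => ?_⟩
  rw [stg_eq]
  gcongr
  calc ∑ k ∈ Finset.range n, v U σ k
      ≤ ∑ k ∈ Finset.range n, (if cnd c σ s k = true then (1 / 2 : ℝ) ^ (str k).length else 0) := by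
        apply Finset.sum_le_sum
        intro k hk
        exact hs0 k s (le_trans (Finset.le_sup hk) (le_trans (le_max_right _ _) hs))
    _ ≤ _ := by
        apply Finset.sum_le_sum_of_subset_of_nonneg
        · intro k hk
          rw [Finset.mem_range] at hk ⊢
          exact lt_of_lt_of_le hk (le_trans (le_max_left _ _) hs)
        · intro k _ _
          split_ifs <;> positivity

theorem nuU_leftRE (hU : IsPrefixFreeMachine U) : LeftRE (nuU U) := by
  obtain ⟨c, hc0⟩ := Nat.Partrec.Code.exists_code.1 hU.1
  have hc : ∀ τ, c.eval (encode τ) = (U τ).map encode := by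
    intro τ
    rw [hc0]
    simp
  let P : List Bool × ℕ × ℕ → ℕ → Bool := fun p s =>
    bif decide (p.1 = []) then decide (p.2.1 < p.2.2)
    else decide (p.2.1 * 2 ^ s < p.2.2 * stg c p.1 s s)
  have hP : Computable₂ P := by
    have ha : Primrec fun q : (List Bool × ℕ × ℕ) × ℕ => q.1.2.1 :=
      Primrec.fst.comp (Primrec.snd.comp Primrec.fst)
    have hb : Primrec fun q : (List Bool × ℕ × ℕ) × ℕ => q.1.2.2 :=
      Primrec.snd.comp (Primrec.snd.comp Primrec.fst)
    have hσ : Primrec fun q : (List Bool × ℕ × ℕ) × ℕ => q.1.1 :=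
      Primrec.fst.comp Primrec.fst
    have : Primrec fun q : (List Bool × ℕ × ℕ) × ℕ =>
        bif decide (q.1.1 = []) then decide (q.1.2.1 < q.1.2.2)
        else decide (q.1.2.1 * 2 ^ q.2 < q.1.2.2 * stg c q.1.1 q.2 q.2) := by
      refine Primrec.cond ?_ ?_ ?_
      · exact (Primrec.eq.comp hσ (Primrec.const [])).decide
      · exact (Primrec.nat_lt.comp ha hb).decide
      · refine (Primrec.nat_lt.comp (Primrec.nat_mul.comp ha ((pow_primrec 2).comp Primrec.snd))
          (Primrec.nat_mul.comp hb ?_)).decide
        exact (stg_primrec c).comp (hσ.pair Primrec.snd)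
    exact this.to_comp.to₂
  refine (re_exists hP).of_eq ?_
  rintro ⟨σ, a, b⟩
  simp only [P]
  by_cases hσ : σ = []
  · simp [hσ, nuU]
  · simp only [hσ, decide_false, cond_false, decide_eq_true_eq]
    have e : nuU U σ = ∑' k, v U σ k := by simp [nuU, hσ]
    rw [e]
    constructor
    · rintro ⟨s, hs⟩
      have h1 : ((a * 2 ^ s : ℕ) : ℝ) < ((b * stg c σ s s : ℕ) : ℝ) := by exact_mod_cast hs
      push_cast at h1
      have h2 := stg_le hU hc σ s s
      have h3 : (a : ℝ) * 2 ^ s < (b * ∑' k, v U σ k) * 2 ^ s := by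
        calc (a : ℝ) * 2 ^ s < b * stg c σ s s := h1
          _ ≤ b * (2 ^ s * ∑' k, v U σ k) := by gcongr
          _ = (b * ∑' k, v U σ k) * 2 ^ s := by ring
      exact lt_of_mul_lt_mul_right h3 (by positivity)
    · intro h
      have h1 := ((v_summable hU σ).hasSum.tendsto_sum_nat.const_mul (b : ℝ)).eventually
        (lt_mem_nhds h)
      obtain ⟨n, hn⟩ := h1.exists
      obtain ⟨s0, hs0⟩ := stg_lim (U := U) hc σ n
      refine ⟨s0, ?_⟩
      have h2 := hs0 s0 le_rfl
      have h3 : (a : ℝ) * 2 ^ s0 < b * stg c σ s0 s0 := by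
        calc (a : ℝ) * 2 ^ s0 < (b * ∑ k ∈ Finset.range n, v U σ k) * 2 ^ s0 := by gcongr
          _ = b * (2 ^ s0 * ∑ k ∈ Finset.range n, v U σ k) := by ring
          _ ≤ b * stg c σ s0 s0 := by gcongr
      exact_mod_cast h3

end leftre

/-! ### `KA ≤ K + O(1)` -/

theorem pos_of_universal {U : List Bool →. List Bool} (hU : IsUniversalMachine U)
    {M : List Bool → ℝ} (hM : IsUniversalSemimeasure M) :
    ∃ d : ℝ, 0 < d ∧ ∀ x, (1 / 2 : ℝ) ^ K U x ≤ d * M x := by
  obtain ⟨d, hd, h⟩ := hM.2 (nuU U) (nuU_semi hU.1) (nuU_leftRE hU.1)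
  refine ⟨d, hd, fun x => le_trans ?_ (h x)⟩
  obtain ⟨τ, hx, hl⟩ := K_spec hU x
  unfold nuU
  split_ifs
  · exact pow_le_one₀ (by norm_num) (by norm_num)
  · have h1 : v U x (encode τ) = (1 / 2) ^ K U x := by
      unfold v
      rw [if_pos, str_encode, hl]
      refine ⟨by rw [str_encode], x, by rwa [str_encode], List.prefix_refl _⟩
    rw [← h1]
    exact (v_summable hU.1 x).le_tsum (encode τ) (fun k _ => v_nonneg U x k)

theorem KA_le_K {U : List Bool →. List Bool} (hU : IsUniversalMachine U)
    {M : List Bool → ℝ} (hM : IsUniversalSemimeasure M) :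
    (∀ x, 0 < M x) ∧ ∃ c : ℕ, ∀ x, KA M x ≤ K U x + c := by
  obtain ⟨d, hd, h⟩ := pos_of_universal hU hM
  have hpos : ∀ x, 0 < M x := by
    intro x
    have h1 : (0 : ℝ) < (1 / 2) ^ K U x := by positivity
    have h2 := lt_of_lt_of_le h1 (h x)
    exact pos_of_mul_pos_right h2 hd.le
  refine ⟨hpos, ⌈Real.logb 2 d⌉₊, fun x => ?_⟩
  have h2 : (1 / 2 : ℝ) ^ K U x = 2 ^ (-(K U x : ℝ)) := by
    rw [Real.rpow_neg (by norm_num), Real.rpow_natCast, one_div, inv_pow]
  have h3 : -(K U x : ℝ) ≤ Real.logb 2 (d * M x) := by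
    rw [Real.le_logb_iff_rpow_le (by norm_num) (mul_pos hd (hpos x)), ← h2]
    exact h x
  rw [Real.logb_mul hd.ne' (hpos x).ne'] at h3
  unfold KA
  have h4 := Nat.le_ceil (Real.logb 2 d)
  linarith

/-! ### a linear lower bound on `K` with a larger slope gives one on `KA` -/

theorem KA_lower {U : List Bool →. List Bool} (hU : IsUniversalMachine U)
    {M : List Bool → ℝ} (hM : IsUniversalSemimeasure M) {δ δ' : ℝ} (h0 : 0 < δ) (hlt : δ < δ')
    (T : Set (List Bool)) (c : ℕ) (hT : ∀ τ ∈ T, δ' * τ.length - c ≤ (K U τ : ℝ)) :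
    ∃ c' : ℕ, ∀ τ ∈ T, δ * τ.length - c' ≤ KA M τ := by
  have hpos := (KA_le_K hU hM).1
  -- choice of `p` and `q`
  obtain ⟨q, hq⟩ := exists_nat_gt (2 / (δ' - δ))
  have hd : 0 < δ' - δ := by linarith
  have hq2 : 2 < (q : ℝ) * (δ' - δ) := by
    rw [div_lt_iff₀ hd] at hq
    exact hq
  have hq0 : 0 < q := by
    rcases Nat.eq_zero_or_pos q with h | h
    · rw [h] at hq2; norm_num at hq2
    · exact h
  set p : ℕ := ⌊(q : ℝ) * δ⌋₊ + 1 with hp
  have hp1 : (q : ℝ) * δ < p := by
    rw [hp]; push_cast; exact Nat.lt_floor_add_one _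
  have hp2 : (p : ℝ) + 1 < q * δ' := by
    have : (⌊(q : ℝ) * δ⌋₊ : ℝ) ≤ q * δ := Nat.floor_le (by positivity)
    rw [hp]; push_cast; nlinarith
  -- the machines
  have hmach : ∀ s : ℕ, ∃ cs : ℕ, ∀ (j : ℕ) (τ : List Bool),
      (τ.length = q * j + s ∧ (1 : ℝ) < 2 ^ (p * j) * M τ) → K U τ ≤ (p + 1) * j + cs := by
    intro s
    obtain ⟨g, hg, hg2⟩ := enum_lemma (α := ℕ)
      (R := fun j τ => τ.length = q * j + s ∧ (1 : ℝ) < 2 ^ (p * j) * M τ)
      (re_R hM.1.2 p q s)
    have hf : Partrec fun r : ℕ × List Bool => g (r.1, val r.2) :=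
      hg.comp (Primrec.fst.pair (val_primrec.comp Primrec.snd)).to_comp
    obtain ⟨cs, hcs⟩ := K_desc hU p hf
    refine ⟨cs, fun j τ hτ => ?_⟩
    obtain ⟨i, hi, hmem⟩ := hg2 j (2 ^ (p * j)) (fun L hL hL2 =>
      count_bound hM.1.1 (q * j + s) (p * j) L hL hL2) τ hτ
    obtain ⟨w, hw, hv⟩ := val_surj (p * j) i hi
    exact hcs j w τ hw (by simpa [hv] using hmem)
  choose cs hcs using hmach
  set C : ℕ := (Finset.range q).sup cs with hC
  have hD : 0 < (q : ℝ) * δ' - (p + 1) := by linarith
  set J : ℝ := (C + c) / (q * δ' - (p + 1)) with hJ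
  have hJ0 : 0 ≤ J := by positivity
  obtain ⟨c', hc'⟩ := exists_nat_ge (max (p : ℝ) (δ * (q * (J + 1))))
  refine ⟨c', fun τ hτ => ?_⟩
  set n := τ.length with hn
  set j := n / q with hj
  have hnj : n = q * j + n % q := (Nat.div_add_mod n q).symm
  have hmod : n % q < q := Nat.mod_lt _ hq0
  have hnlt : (n : ℝ) < q * (j + 1) := by
    have : n < q * (j + 1) := by
      rw [Nat.mul_add, Nat.mul_one]; omega
    exact_mod_cast this
  have hnge : (q : ℝ) * j ≤ n := by
    have : q * j ≤ n := by omega
    exact_mod_cast this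
  by_cases hbig : (1 : ℝ) < 2 ^ (p * j) * M τ
  · -- `j` is bounded
    have h1 := hcs (n % q) j τ ⟨hnj, hbig⟩
    have h2 : cs (n % q) ≤ C := Finset.le_sup (f := cs) (Finset.mem_range.2 hmod)
    have h3 : (K U τ : ℝ) ≤ (p + 1) * j + C := by
      have : K U τ ≤ (p + 1) * j + C := by omega
      exact_mod_cast this
    have h4 := hT τ hτ
    have h5 : (j : ℝ) * (q * δ' - (p + 1)) ≤ C + c := by
      have h6 : δ' * (q * j) ≤ δ' * n := by
        apply mul_le_mul_of_nonneg_left hnge (by linarith)
      linarith
    have h6 : (j : ℝ) ≤ J := by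
      rw [hJ, le_div_iff₀ hD]; exact h5
    have h7 : δ * n ≤ δ * (q * (J + 1)) := by
      apply mul_le_mul_of_nonneg_left _ h0.le
      have : (q : ℝ) * (j + 1) ≤ q * (J + 1) := by gcongr
      linarith
    have h8 : 0 ≤ KA M τ := by
      unfold KA
      have := Real.logb_nonpos (b := 2) (by norm_num) (hpos τ).le (semi_le_one hM.1.1 τ)
      linarith
    have h9 := le_trans (le_max_right _ _) hc'
    linarith
  · push Not at hbig
    have h1 : (p * j : ℕ) ≤ KA M τ := by
      unfold KA
      have h2 : M τ ≤ (2 : ℝ) ^ (-((p * j : ℕ) : ℝ)) := by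
        rw [Real.rpow_neg (by norm_num), Real.rpow_natCast]
        rw [← one_div, le_div_iff₀ (by positivity)]
        linarith
      have h3 : Real.logb 2 (M τ) ≤ -((p * j : ℕ) : ℝ) := by
        rw [Real.logb_le_iff_le_rpow (by norm_num) (hpos τ)]
        exact h2
      linarith
    have h2 : δ * n ≤ p * (j + 1) := by
      calc δ * n ≤ δ * (q * (j + 1)) := by
            apply mul_le_mul_of_nonneg_left hnlt.le h0.le
        _ = (q * δ) * (j + 1) := by ring
        _ ≤ p * (j + 1) := by gcongr
    have h9 := le_trans (le_max_left _ _) hc'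
    push_cast at h1
    linarith

/-! ### windows -/

theorem window_length (X : ℕ → Bool) (i n : ℕ) : (window X i n).length = n := by
  simp [window]

theorem window_getElem (X : ℕ → Bool) (i n j : ℕ) (h : j < (window X i n).length) :
    (window X i n)[j] = X (i + j) := by
  simp [window]

theorem window_succ (X : ℕ → Bool) (i n : ℕ) :
    window X i (n + 1) = window X i n ++ [X (i + n)] := by
  unfold window
  rw [List.ofFn_succ_last]
  simp

theorem window_add (X : ℕ → Bool) (i m n : ℕ) :
    window X i (m + n) = window X i m ++ window X (i + m) n := by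
  induction n with
  | zero => simp [window]
  | succ n ih =>
    rw [← add_assoc, window_succ, ih, window_succ, List.append_assoc, add_assoc]

theorem window_drop_take (X : ℕ → Bool) (i n d e : ℕ) (h : d + e ≤ n) :
    ((window X i n).drop d).take e = window X (i + d) e := by
  obtain ⟨r, rfl⟩ := Nat.exists_eq_add_of_le h
  rw [window_add, window_add, List.append_assoc, List.drop_append, window_length]
  have h1 : (window X i d).drop d = [] := by
    apply List.drop_eq_nil_of_le
    rw [window_length]
  rw [h1]
  simp only [Nat.sub_self, List.drop_zero, List.nil_append]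
  rw [List.take_append_of_le_length (by rw [window_length])]
  rw [List.take_of_length_le (by rw [window_length])]

/-! ### a shift complex sequence omits a block of zeros -/

theorem omits_zeros {U : List Bool →. List Bool} (hU : IsUniversalMachine U) {δ : ℝ} (h0 : 0 < δ)
    {X : ℕ → Bool} {c : ℕ} (hX : ∀ i n : ℕ, δ * n - c ≤ (K U (window X i n) : ℝ)) :
    ∃ N : ℕ, 2 ≤ N ∧ ∀ i, window X i N ≠ List.replicate N false := by
  obtain ⟨q, hq⟩ := exists_nat_ge (max 2 (2 / δ))
  have hq2 : (2 : ℝ) ≤ q := le_trans (le_max_left _ _) hq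
  have hq3 : 2 ≤ δ * q := by
    have := le_trans (le_max_right _ _) hq
    rw [div_le_iff₀ h0] at this
    linarith
  have hf : Partrec fun r : ℕ × List Bool =>
      (Part.some (List.replicate (q * r.1) false) : Part (List Bool)) := by
    have h1 : Primrec fun n : ℕ => List.replicate n false := by
      have h2 : Primrec fun n : ℕ => (List.range n).map fun _ => false :=
        Primrec.list_map Primrec.list_range (Primrec.const false).to₂
      refine h2.of_eq fun n => ?_
      simp
    exact (h1.comp (Primrec.nat_mul.comp (Primrec.const q) Primrec.fst)).to_comp.partrec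
  obtain ⟨c0, hc0⟩ := K_desc hU 0 hf
  set j := c + c0 + 1 with hj
  refine ⟨q * j, ?_, ?_⟩
  · have h2 : 2 ≤ q := by exact_mod_cast hq2
    nlinarith
  · intro i hi
    have h1 := hX i (q * j)
    rw [hi] at h1
    have h2 := hc0 j [] (List.replicate (q * j) false) (by simp) (by simp)
    have h3 : (K U (List.replicate (q * j) false) : ℝ) ≤ j + c0 := by
      have : K U (List.replicate (q * j) false) ≤ j + c0 := by simpa using h2
      exact_mod_cast this
    push_cast at h1
    have h4 : 2 * (j : ℝ) ≤ δ * (q * j) := by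
      have : (0 : ℝ) ≤ j := Nat.cast_nonneg _
      nlinarith
    have h5 : (j : ℝ) = c + c0 + 1 := by rw [hj]; push_cast; ring
    linarith

/-! ### the recoding -/

/-- all strings of length `n` -/
def allS : ℕ → Finset (List Bool)
  | 0 => {[]}
  | n + 1 => Finset.image₂ List.cons Finset.univ (allS n)

theorem mem_allS (n : ℕ) : ∀ w, w ∈ allS n ↔ w.length = n := by
  induction n with
  | zero => intro w; simp [allS]
  | succ n ih =>
    intro w
    simp only [allS, Finset.mem_image₂, Finset.mem_univ, true_and]
    constructor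
    · rintro ⟨b, l, hl, rfl⟩
      simp [(ih l).1 hl]
    · intro h
      rcases w with _ | ⟨b, l⟩
      · simp at h
      · exact ⟨b, l, (ih l).2 (by simpa using h), rfl⟩

theorem card_allS (n : ℕ) : (allS n).card = 2 ^ n := by
  induction n with
  | zero => simp [allS]
  | succ n ih =>
    have : (allS (n+1)).card = (Finset.univ : Finset Bool).card * (allS n).card := by
      show (Finset.image₂ List.cons Finset.univ (allS n)).card = _
      rw [Finset.card_image₂_iff]
      rintro ⟨a, b⟩ _ ⟨a', b'⟩ _ h
      simp only [List.cons.injEq] at h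
      rw [h.1, h.2]
    rw [this, ih, pow_succ]
    simp
    ring

/-- strings made of `t` blocks of length `N`, none of which is the zero block -/
def good (N : ℕ) : ℕ → Finset (List Bool)
  | 0 => {[]}
  | t + 1 => Finset.image₂ (· ++ ·) ((allS N).erase (List.replicate N false)) (good N t)

theorem card_good (N t : ℕ) : (good N t).card ≤ (2 ^ N - 1) ^ t := by
  induction t with
  | zero => simp [good]
  | succ t ih =>
    calc (good N (t+1)).card
        ≤ ((allS N).erase (List.replicate N false)).card * (good N t).card :=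
          Finset.card_image₂_le _ _ _
      _ = (2 ^ N - 1) * (good N t).card := by
          rw [Finset.card_erase_of_mem, card_allS]
          rw [mem_allS]; simp
      _ ≤ (2 ^ N - 1) * (2 ^ N - 1) ^ t := by gcongr
      _ = (2 ^ N - 1) ^ (t + 1) := by rw [pow_succ]; ring

theorem good_length (N t : ℕ) : ∀ w ∈ good N t, w.length = N * t := by
  induction t with
  | zero => intro w hw; simp [good] at hw; simp [hw]
  | succ t ih =>
    intro w hw
    simp only [good, Finset.mem_image₂] at hw
    obtain ⟨a, ha, b, hb, rfl⟩ := hw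
    have h1 := (mem_allS N a).1 (Finset.mem_of_mem_erase ha)
    have h2 := ih b hb
    simp [h1, h2]
    ring

theorem window_good {X : ℕ → Bool} {N : ℕ} (hX : ∀ i, window X i N ≠ List.replicate N false)
    (t : ℕ) : ∀ i, window X i (N * t) ∈ good N t := by
  induction t with
  | zero => intro i; simp [good, window]
  | succ t ih =>
    intro i
    rw [show N * (t + 1) = N + N * t by ring, window_add]
    have h1 : window X i N ∈ (allS N).erase (List.replicate N false) := by
      rw [Finset.mem_erase]
      exact ⟨hX i, (mem_allS _ _).2 (window_length _ _ _)⟩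
    exact Finset.mem_image₂_of_mem (f := fun a b : List Bool => a ++ b) h1 (ih (i + N))

theorem exists_t (N : ℕ) (hN : 2 ≤ N) : ∃ t : ℕ, 1 ≤ t ∧ (2 ^ N - 1) ^ t ≤ 2 ^ (N * t - 1) := by
  have h1 : ((2 : ℝ) ^ N - 1) / 2 ^ N < 1 := by
    rw [div_lt_one (by positivity)]; linarith
  obtain ⟨t, ht⟩ := exists_pow_lt_of_lt_one (show (0 : ℝ) < 1 / 2 by norm_num) h1
  have ht1 : 1 ≤ t := by
    rcases Nat.eq_zero_or_pos t with h | h
    · rw [h] at ht; norm_num at ht
    · exact h
  refine ⟨t, ht1, ?_⟩
  rw [div_pow, div_lt_iff₀ (by positivity), ← pow_mul] at ht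
  have h2 : 1 ≤ N * t := by nlinarith
  have h3 : (2 : ℝ) ^ (N * t) = 2 ^ (N * t - 1) * 2 := by
    rw [← pow_succ, Nat.sub_add_cancel h2]
  rw [h3] at ht
  have h4 : ((2 : ℝ) ^ N - 1) ^ t ≤ 2 ^ (N * t - 1) := by linarith
  have h5 : (1 : ℕ) ≤ 2 ^ N := Nat.one_le_two_pow
  have h6 : (((2 ^ N - 1) ^ t : ℕ) : ℝ) ≤ ((2 ^ (N * t - 1) : ℕ) : ℝ) := by
    push_cast [Nat.cast_sub h5]
    exact h4
  exact_mod_cast h6

/-- a block code which saves one bit -/
theorem exists_code {N t : ℕ} (h : (2 ^ N - 1) ^ t ≤ 2 ^ (N * t - 1)) :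
    ∃ e d : List Bool → List Bool, ∀ w ∈ good N t, (e w).length = N * t - 1 ∧ d (e w) = w := by
  classical
  have hcard : Fintype.card (good N t) ≤ Fintype.card (allS (N * t - 1)) := by
    rw [Fintype.card_coe, Fintype.card_coe, card_allS]
    exact (card_good N t).trans h
  obtain ⟨φ⟩ := Function.Embedding.nonempty_of_card_le hcard
  let e : List Bool → List Bool := fun w => if hw : w ∈ good N t then (φ ⟨w, hw⟩).1 else []
  have he : ∀ w (hw : w ∈ good N t), e w = (φ ⟨w, hw⟩).1 := by
    intro w hw; simp [e, hw]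
  let d : List Bool → List Bool := fun z =>
    if hz : ∃ w ∈ good N t, e w = z then hz.choose else []
  refine ⟨e, d, fun w hw => ⟨?_, ?_⟩⟩
  · rw [he w hw]
    exact (mem_allS _ _).1 (φ ⟨w, hw⟩).2
  · have hz : ∃ w' ∈ good N t, e w' = e w := ⟨w, hw, rfl⟩
    have hd : d (e w) = hz.choose := by simp only [d]; rw [dif_pos hz]
    rw [hd]
    obtain ⟨h1, h2⟩ := hz.choose_spec
    generalize hz.choose = z at h1 h2
    rw [he _ h1, he _ hw] at h2
    have := φ.injective (Subtype.ext h2)
    exact congrArg Subtype.val this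

/-- every function on strings agrees with a primitive recursive one on the strings of
length `n` -/
theorem exists_primrec {β : Type} [Primcodable β] (h : List Bool → β) (n : ℕ) :
    ∃ h' : List Bool → β, Primrec h' ∧ ∀ w, w.length = n → h' w = h w := by
  classical
  set B := ((allS n).sup fun w => encode w) + 1 with hB
  refine ⟨fun w => ((List.range B).map fun k => h (str k)).getD (encode w) (h []), ?_, ?_⟩
  · exact (Primrec.list_getD (h [])).comp (Primrec.const _) Primrec.encode
  · intro w hw
    have h1 : encode w < B := by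
      have : encode w ≤ (allS n).sup fun w => encode w :=
        Finset.le_sup (f := fun w => encode w) ((mem_allS n w).2 hw)
      omega
    show ((List.range B).map fun k => h (str k)).getD (encode w) (h []) = h w
    rw [List.getD_eq_getElem _ _ (by simpa using h1)]
    simp [str_encode]

/-! ### the main construction -/

theorem flatMap_windows (X : ℕ → Bool) (L a k : ℕ) :
    ((List.range k).flatMap fun b => window X (L * (a + b)) L) = window X (L * a) (L * k) := by
  induction k with
  | zero => simp [window]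
  | succ k ih =>
    rw [List.range_succ, List.flatMap_append, ih, Nat.mul_succ, window_add]
    simp [Nat.mul_add]

theorem recode {U : List Bool →. List Bool} (hU : IsUniversalMachine U) {δ : ℝ} (h0 : 0 < δ)
    {X : ℕ → Bool} {c : ℕ} (hX : ∀ i n : ℕ, δ * n - c ≤ (K U (window X i n) : ℝ)) :
    ∃ (Y : ℕ → Bool) (δ' : ℝ) (c' : ℕ), δ < δ' ∧
      (∀ i n : ℕ, δ' * n - c' ≤ (K U (window Y i n) : ℝ)) ∧
      ∃ (L M : ℕ) (E : List Bool × ℕ → Bool), Primrec E ∧
        ∀ m, Y m = E (window X (L * (m / M)) L, m % M) := by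
  obtain ⟨N, hN, hzero⟩ := omits_zeros hU h0 hX
  obtain ⟨t, ht, hpow⟩ := exists_t N hN
  obtain ⟨e, d, hed⟩ := exists_code hpow
  set L := N * t with hL
  have hL2 : 2 ≤ L := by rw [hL]; nlinarith
  set M := L - 1 with hM
  have hM1 : 1 ≤ M := by omega
  have hLM : L = M + 1 := by omega
  obtain ⟨e', he'p, he'⟩ := exists_primrec e L
  obtain ⟨d', hd'p, hd'⟩ := exists_primrec d M
  have hgood : ∀ i, window X i L ∈ good N t := window_good hzero t
  let E : List Bool × ℕ → Bool := fun r => (e' r.1).getD r.2 false
  have hE : Primrec E := (Primrec.list_getD false).comp (he'p.comp Primrec.fst) Primrec.snd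
  let Y : ℕ → Bool := fun m => E (window X (L * (m / M)) L, m % M)
  have hY : ∀ b, window Y (M * b) M = e (window X (L * b) L) := by
    intro b
    have hlen := (hed _ (hgood (L * b))).1
    apply List.ext_getElem
    · rw [window_length, hlen]
    · intro j h1 h2
      rw [window_length] at h1
      rw [window_getElem]
      have h3 : (M * b + j) / M = b := by
        rw [Nat.mul_add_div (by omega), Nat.div_eq_of_lt h1, add_zero]
      have h4 : (M * b + j) % M = j := by
        rw [Nat.mul_add_mod, Nat.mod_eq_of_lt h1]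
      show (e' (window X (L * ((M * b + j) / M)) L)).getD ((M * b + j) % M) false = _
      rw [h3, h4, he' _ (window_length _ _ _), List.getD_eq_getElem _ _ h2]
  -- the decoders
  let D : ℕ → List Bool → List Bool := fun o τ =>
    (List.range ((τ.length - o) / M)).flatMap fun b => d' ((τ.drop (o + b * M)).take M)
  have hD : ∀ o, Primrec (D o) := by
    intro o
    refine Primrec.list_flatMap ?_ ?_
    · exact Primrec.list_range.comp (Primrec.nat_div.comp
        (Primrec.nat_sub.comp Primrec.list_length (Primrec.const o)) (Primrec.const M))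
    · refine hd'p.comp (Primrec.list_take.comp (Primrec.const M) (Primrec.list_drop.comp ?_
        Primrec.fst))
      exact Primrec.nat_add.comp (Primrec.const o) (Primrec.nat_mul.comp Primrec.snd
        (Primrec.const M))
  have hDY : ∀ i n a o, i + o = M * a →
      D o (window Y i n) = window X (L * a) (L * ((n - o) / M)) := by
    intro i n a o hio
    rw [← flatMap_windows]
    show (List.range (((window Y i n).length - o) / M)).flatMap
      (fun b => d' (((window Y i n).drop (o + b * M)).take M)) = _
    rw [window_length]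
    rw [List.flatMap_def, List.flatMap_def]
    congr 1
    apply List.map_congr_left
    intro b hb
    rw [List.mem_range] at hb
    have h1 : o + b * M + M ≤ n := by
      have h2 : (b + 1) * M ≤ n - o := by
        calc (b + 1) * M ≤ ((n - o) / M) * M := by gcongr; omega
          _ ≤ n - o := Nat.div_mul_le_self _ _
      have h3 : 1 ≤ (b + 1) * M := by nlinarith
      have h4 : (b + 1) * M = b * M + M := by ring
      omega
    rw [window_drop_take _ _ _ _ _ h1]
    have h2 : i + (o + b * M) = M * (a + b) := by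
      rw [← add_assoc, hio]; ring
    rw [h2, hY, hd' _ (hed _ (hgood _)).1, (hed _ (hgood _)).2]
  have hC : ∀ o, ∃ c1 : ℕ, ∀ x, K U (D o x) ≤ K U x + c1 := fun o => K_map hU (hD o).to_comp
  choose c1 hc1 using hC
  set C := (Finset.range M).sup c1 with hCdef
  obtain ⟨c', hc'⟩ := exists_nat_ge (2 * δ * L + c + C)
  have hMpos : (0 : ℝ) < M := by exact_mod_cast hM1
  refine ⟨Y, δ * L / M, c', ?_, ?_, L, M, E, hE, fun m => rfl⟩
  · rw [lt_div_iff₀ hMpos, hLM]
    push_cast
    nlinarith
  · intro i n
    -- alignment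
    obtain ⟨a, o, ho, hio⟩ : ∃ a o, o < M ∧ i + o = M * a := by
      refine ⟨(i + (M - 1)) / M, M * ((i + (M - 1)) / M) - i, ?_, ?_⟩
      · have h1 := Nat.div_mul_le_self (i + (M - 1)) M
        rw [mul_comm] at h1
        omega
      · have h1 := Nat.div_add_mod (i + (M - 1)) M
        have h2 := Nat.mod_lt (i + (M - 1)) (show M > 0 by omega)
        omega
    have h1 := hDY i n a o hio
    have h2 := hc1 o (window Y i n)
    rw [h1] at h2
    have h3 : c1 o ≤ C := Finset.le_sup (f := c1) (Finset.mem_range.2 ho)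
    have h4 := hX (L * a) (L * ((n - o) / M))
    set k := (n - o) / M with hk
    have h5 : (n : ℝ) ≤ M * (k + 2) := by
      have h6 : n - o < M * (k + 1) := by
        have := Nat.lt_div_mul_add (a := n - o) (b := M) (by omega)
        rw [← hk] at this
        rw [Nat.mul_add, Nat.mul_one, mul_comm M k]
        exact this
      have h7 : n ≤ M * (k + 2) := by
        have : M * (k + 2) = M * (k + 1) + M := by ring
        omega
      exact_mod_cast h7
    have h6 : (K U (window X (L * a) (L * k)) : ℝ) ≤ K U (window Y i n) + C := by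
      have : K U (window X (L * a) (L * k)) ≤ K U (window Y i n) + C := by omega
      exact_mod_cast this
    have h7 : δ * L / M * n ≤ δ * L * (k + 2) := by
      have h8 : (n : ℝ) / M ≤ k + 2 := by
        rw [div_le_iff₀ hMpos]; linarith
      calc δ * L / M * n = δ * L * (n / M) := by ring
        _ ≤ δ * L * (k + 2) := by gcongr
    push_cast at h4
    linarith

/-! ### oracle computations -/

section oracle

variable {α β γ : Type} [Primcodable α] [Primcodable β] [Primcodable γ] {O : Set (ℕ →. ℕ)}

theorem cin_comp {f : β → γ} {g : α → β} (hf : ComputableIn O f) (hg : ComputableIn O g) :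
    ComputableIn O fun a => f (g a) := by
  unfold ComputableIn RecursiveIn at *
  refine (Nat.RecursiveIn.comp hf hg).of_eq fun n => ?_
  rcases h : (decode n : Option α) with _ | a
  · simp
  · simp

theorem cin_pair {f : α → β} {g : α → γ} (hf : ComputableIn O f) (hg : ComputableIn O g) :
    ComputableIn O fun a => (f a, g a) := by
  unfold ComputableIn RecursiveIn at *
  refine (Nat.RecursiveIn.pair hf hg).of_eq fun n => ?_
  rcases h : (decode n : Option α) with _ | a
  · simp [Seq.seq]
  · simp [Seq.seq]

end oracle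

theorem encode_bool (b : Bool) : encode b = b.toNat := by cases b <;> rfl

theorem cin_self (X : ℕ → Bool) : ComputableIn {oracle X} X := by
  have h : Nat.RecursiveIn {oracle X} (oracle X) := Nat.RecursiveIn.oracle _ (by simp)
  unfold ComputableIn RecursiveIn
  refine h.of_eq fun n => ?_
  simp [oracle, encode_bool]

theorem cin_window (X : ℕ → Bool) (n : ℕ) : ComputableIn {oracle X} fun i => window X i n := by
  induction n with
  | zero =>
    have : (fun i => window X i 0) = fun _ => [] := by
      funext i; simp [window]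
    rw [this]
    exact ComputableIn.const []
  | succ n ih =>
    have h1 : (fun i => window X i (n + 1)) = fun i => window X i n ++ [X (i + n)] := by
      funext i; exact window_succ X i n
    rw [h1]
    have h2 : ComputableIn {oracle X} fun i => X (i + n) :=
      cin_comp (cin_self X) (Primrec.nat_add.comp Primrec.id (Primrec.const n)).computableIn
    have h3 : ComputableIn {oracle X} fun p : List Bool × Bool => p.1 ++ [p.2] :=
      (Primrec.list_concat.comp Primrec.fst Primrec.snd).computableIn
    exact cin_comp h3 (cin_pair ih h2)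

theorem reducible_of {X Y : ℕ → Bool} {L M : ℕ} {E : List Bool × ℕ → Bool} (hE : Primrec E)
    (h : ∀ m, Y m = E (window X (L * (m / M)) L, m % M)) :
    TuringReducible (oracle Y) (oracle X) := by
  have h1 : ComputableIn {oracle X} fun m => (window X (L * (m / M)) L, m % M) := by
    refine cin_pair ?_ (Primrec.nat_mod.comp Primrec.id (Primrec.const M)).computableIn
    exact cin_comp (f := fun i => window X i L) (cin_window X L) (Primrec.nat_mul.comp (Primrec.const L)
      (Primrec.nat_div.comp Primrec.id (Primrec.const M))).computableIn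
  have h2 : ComputableIn {oracle X} fun m => (E (window X (L * (m / M)) L, m % M)).toNat :=
    cin_comp (Primrec.dom_bool Bool.toNat).computableIn (cin_comp hE.computableIn h1)
  have h3 : oracle Y = fun m => Part.some (E (window X (L * (m / M)) L, m % M)).toNat := by
    funext m
    rw [oracle, h]
  rw [h3]
  exact h2

/-! ### The theorem -/

theorem weakEquivalent_SC_SSC (U : List Bool →. List Bool) (hU : IsUniversalMachine U)
    (M : List Bool → ℝ) (hM : IsUniversalSemimeasure M) (δ : ℝ) (h0 : 0 < δ) :
    WeakEquivalent (SC U δ) (SSC M δ) := by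
  constructor
  · rintro Y ⟨c, hY⟩
    obtain ⟨_, c1, hc1⟩ := KA_le_K hU hM
    refine ⟨Y, ⟨c + c1, fun i n => ?_⟩, TuringReducible.refl _⟩
    have h2 := hY i n
    have h3 := hc1 (window Y i n)
    push_cast
    linarith
  · rintro X ⟨c, hX⟩
    obtain ⟨Y, δ', c', hlt, hY, L, N, E, hE, hYE⟩ := recode hU h0 hX
    refine ⟨Y, ?_, reducible_of hE hYE⟩
    obtain ⟨c'', h⟩ := KA_lower hU hM h0 hlt {τ | ∃ i n, τ = window Y i n} c' (by
      rintro τ ⟨i, n, rfl⟩
      rw [window_length]
      exact hY i n)
    refine ⟨c'', fun i n => ?_⟩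
    have := h (window Y i n) ⟨i, n, rfl⟩
    rwa [window_length] at this

end Pool.Agent.Lib.MP_8e1844_lc
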